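import Mathlib

set_option autoImplicit false

/-!
Harmonic sums, Morley's congruence and Wolstenholme's congruence in the ring `ZMod (p ^ 3)`.
-/

namespace Pool.Agent.V7H93.BS

open Finset

/-- the inverse of a natural number -/
noncomputable def iv (K : Type) [Semiring K] [Inv K] (j : ℕ) : K := ((j : ℕ) : K)⁻¹

/-- harmonic numbers -/
noncomputable def H (K : Type) [Semiring K] [Inv K] (n : ℕ) : K := ∑ j ∈ range n, iv K (j + 1)
/-- harmonic numbers of order two -/
noncomputable def H2 (K : Type) [Semiring K] [Inv K] (n : ℕ) : K := ∑ j ∈ range n, iv K (j + 1) ^ 2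
/-- odd harmonic numbers -/
noncomputable def O (K : Type) [Semiring K] [Inv K] (n : ℕ) : K := ∑ j ∈ range n, iv K (2 * j + 1)
/-- odd harmonic numbers of order two -/
noncomputable def O2 (K : Type) [Semiring K] [Inv K] (n : ℕ) : K := ∑ j ∈ range n, iv K (2 * j + 1) ^ 2

section
variable {K : Type} [Semiring K] [Inv K]
lemma H_succ (n : ℕ) : H K (n + 1) = H K n + iv K (n + 1) := sum_range_succ _ _
lemma H2_succ (n : ℕ) : H2 K (n + 1) = H2 K n + iv K (n + 1) ^ 2 := sum_range_succ _ _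
lemma O_succ (n : ℕ) : O K (n + 1) = O K n + iv K (2 * n + 1) := sum_range_succ _ _
lemma O2_succ (n : ℕ) : O2 K (n + 1) = O2 K n + iv K (2 * n + 1) ^ 2 := sum_range_succ _ _
lemma H_zero : H K 0 = 0 := sum_range_zero _
lemma H2_zero : H2 K 0 = 0 := sum_range_zero _
lemma O_zero : O K 0 = 0 := sum_range_zero _
lemma O2_zero : O2 K 0 = 0 := sum_range_zero _
end

/-! ### the ring -/

/-- the ring -/
abbrev R (p : ℕ) : Type := ZMod (p ^ 3)

section ring
variable {p : ℕ} [hp : Fact p.Prime]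

lemma cast_iv {j : ℕ} (h1 : 1 ≤ j) (h2 : j < p) : (j : R p) * iv (R p) j = 1 := by
  unfold iv
  refine ZMod.coe_mul_inv_eq_one j ?_
  refine Nat.Coprime.pow_right 3 ?_
  exact (Nat.coprime_of_lt_prime (by omega) h2 hp.out).symm

lemma pi_cube : ((p : ℕ) : R p) ^ 3 = 0 := by
  rw [← Nat.cast_pow]
  exact ZMod.natCast_self _

lemma pdvd : p ∣ p ^ 3 := dvd_pow_self p (by norm_num)

/-- reduction modulo `p` -/
noncomputable def red (p : ℕ) : R p →+* ZMod p := ZMod.castHom (dvd_pow_self p (by norm_num)) (ZMod p)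

lemma red_iv {j : ℕ} (h1 : 1 ≤ j) (h2 : j < p) : red p (iv (R p) j) = iv (ZMod p) j := by
  have h := congrArg (red p) (cast_iv (p := p) h1 h2)
  rw [map_mul, map_one, map_natCast] at h
  exact eq_inv_of_mul_eq_one_right h

lemma pi_sq {a : R p} (h : red p a = 0) : ((p : ℕ) : R p) ^ 2 * a = 0 := by
  haveI : NeZero (p ^ 3) := ⟨pow_ne_zero 3 hp.out.ne_zero⟩
  have h1 : ((a.val : ℕ) : R p) = a := ZMod.natCast_zmod_val a
  rw [← h1, map_natCast, ZMod.natCast_eq_zero_iff] at h
  obtain ⟨b, hb⟩ := h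
  rw [← h1, hb]
  push_cast
  have := pi_cube (p := p)
  linear_combination (b : R p) * this

lemma red_H {n : ℕ} (h : n < p) : red p (H (R p) n) = H (ZMod p) n := by
  unfold H
  rw [map_sum]
  refine sum_congr rfl fun j hj => ?_
  rw [mem_range] at hj
  exact red_iv (by omega) (by omega)

lemma red_H2 {n : ℕ} (h : n < p) : red p (H2 (R p) n) = H2 (ZMod p) n := by
  unfold H2
  rw [map_sum]
  refine sum_congr rfl fun j hj => ?_
  rw [mem_range] at hj
  rw [map_pow, red_iv (by omega) (by omega)]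

lemma red_O {n : ℕ} (h : 2 * n ≤ p) : red p (O (R p) n) = O (ZMod p) n := by
  unfold O
  rw [map_sum]
  refine sum_congr rfl fun j hj => ?_
  rw [mem_range] at hj
  exact red_iv (by omega) (by omega)

end ring

/-! ### the field -/

section field
variable {p : ℕ} [hp : Fact p.Prime]

lemma cast_ne {j : ℕ} (h1 : 1 ≤ j) (h2 : j < p) : ((j : ℕ) : ZMod p) ≠ 0 := by
  rw [Ne, ZMod.natCast_eq_zero_iff]
  intro h
  have := Nat.le_of_dvd (by omega) h
  omega

lemma mul_iv {j : ℕ} (h1 : 1 ≤ j) (h2 : j < p) : ((j : ℕ) : ZMod p) * iv (ZMod p) j = 1 :=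
  mul_inv_cancel₀ (cast_ne h1 h2)

lemma sum_univ (f : ZMod p → ZMod p) : ∑ x : ZMod p, f x = ∑ j ∈ range p, f ((j : ℕ) : ZMod p) := by
  haveI : NeZero p := ⟨hp.out.ne_zero⟩
  symm
  refine sum_nbij' (fun j => ((j : ℕ) : ZMod p)) (fun x => x.val) ?_ ?_ ?_ ?_ ?_
  · intro j _
    exact mem_univ _
  · intro x _
    rw [mem_range]
    exact ZMod.val_lt x
  · intro j hj
    rw [mem_range] at hj
    exact ZMod.val_cast_of_lt hj
  · intro x _
    exact ZMod.natCast_zmod_val x
  · intro j _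
    rfl

lemma sum_pow_inv (k : ℕ) (h0 : 0 < k) (hk : k < p - 1) : ∑ j ∈ range (p - 1), iv (ZMod p) (j + 1) ^ k = 0 := by
  haveI : NeZero p := ⟨hp.out.ne_zero⟩
  have h1 : ∑ x : ZMod p, (x⁻¹) ^ k = 0 := by
    have h2 : ∑ x : ZMod p, x ^ k = 0 := by
      refine FiniteField.sum_pow_lt_card_sub_one (ZMod p) k ?_
      rw [ZMod.card]
      exact hk
    rw [← h2]
    exact Equiv.sum_comp (Function.Involutive.toPerm (fun x : ZMod p => x⁻¹) inv_inv)
      (fun x : ZMod p => x ^ k)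
  rw [sum_univ] at h1
  have h3 : p = (p - 1) + 1 := by have := hp.out.pos; omega
  rw [show range p = range ((p - 1) + 1) by rw [← h3], sum_range_succ'] at h1
  rw [Nat.cast_zero, inv_zero, zero_pow (by omega), add_zero] at h1
  unfold iv
  rw [← h1]

variable {h : ℕ}

lemma H_all (hp3 : 3 < p) (hh : p = 2 * h + 1) : H (ZMod p) (2 * h) = 0 := by
  have h1 := sum_pow_inv (p := p) 1 one_pos (by omega)
  unfold H
  rw [show 2 * h = p - 1 by omega]
  simpa using h1

lemma H2_all (hp3 : 3 < p) (hh : p = 2 * h + 1) : H2 (ZMod p) (2 * h) = 0 := by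
  have h1 := sum_pow_inv (p := p) 2 two_pos (by omega)
  unfold H2
  rw [show 2 * h = p - 1 by omega]
  exact h1

lemma two_ne (hp3 : 3 < p) : (2 : ZMod p) ≠ 0 := by
  have := cast_ne (p := p) (j := 2) (by norm_num) (by omega)
  exact_mod_cast this

lemma H2_half (hp3 : 3 < p) (hh : p = 2 * h + 1) : H2 (ZMod p) h = 0 := by
  have h1 := H2_all hp3 hh
  unfold H2 at h1 ⊢
  rw [two_mul, sum_range_add, ← sum_range_reflect (fun x => iv (ZMod p) (h + x + 1) ^ 2)] at h1
  have h2 : ∑ j ∈ range h, iv (ZMod p) (h + (h - 1 - j) + 1) ^ 2 =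
      ∑ j ∈ range h, iv (ZMod p) (j + 1) ^ 2 := by
    refine sum_congr rfl fun j hj => ?_
    rw [mem_range] at hj
    have e : ((h + (h - 1 - j) + 1 : ℕ) : ZMod p) = -((j + 1 : ℕ) : ZMod p) := by
      have e2 : ((h + (h - 1 - j) + 1 + (j + 1) : ℕ) : ZMod p) = 0 := by
        rw [show h + (h - 1 - j) + 1 + (j + 1) = p by omega]
        exact ZMod.natCast_self p
      push_cast at e2 ⊢
      linear_combination e2
    unfold iv
    rw [e, inv_neg, neg_sq]
  rw [h2] at h1
  have h3 : (2 : ZMod p) * ∑ j ∈ range h, iv (ZMod p) (j + 1) ^ 2 = 0 := by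
    linear_combination h1
  exact (mul_eq_zero.1 h3).resolve_left (two_ne hp3)

/-- even and odd terms -/
lemma H_split (hp3 : 3 < p) (n : ℕ) (hn : 2 * n < p) : 2 * H (ZMod p) (2 * n) = H (ZMod p) n + 2 * O (ZMod p) n := by
  induction n with
  | zero => simp [H_zero, O_zero]
  | succ n ih =>
    rw [show 2 * (n + 1) = (2 * n + 1) + 1 by ring, H_succ, H_succ, H_succ, O_succ, mul_add, mul_add,
      ih (by omega)]
    have e : 2 * iv (ZMod p) (2 * n + 1 + 1) = iv (ZMod p) (n + 1) := by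
      unfold iv
      rw [show ((2 * n + 1 + 1 : ℕ) : ZMod p) = 2 * ((n + 1 : ℕ) : ZMod p) by push_cast; ring, mul_inv,
        ← mul_assoc, mul_inv_cancel₀ (two_ne hp3), one_mul]
    linear_combination e

lemma H2_split (hp3 : 3 < p) (n : ℕ) (hn : 2 * n < p) :
    4 * H2 (ZMod p) (2 * n) = H2 (ZMod p) n + 4 * O2 (ZMod p) n := by
  induction n with
  | zero => simp [H2_zero, O2_zero]
  | succ n ih =>
    rw [show 2 * (n + 1) = (2 * n + 1) + 1 by ring, H2_succ, H2_succ, H2_succ, O2_succ, mul_add, mul_add,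
      ih (by omega)]
    have e : 2 * iv (ZMod p) (2 * n + 1 + 1) = iv (ZMod p) (n + 1) := by
      unfold iv
      rw [show ((2 * n + 1 + 1 : ℕ) : ZMod p) = 2 * ((n + 1 : ℕ) : ZMod p) by push_cast; ring, mul_inv,
        ← mul_assoc, mul_inv_cancel₀ (two_ne hp3), one_mul]
    rw [← e]
    ring

lemma O_half (hp3 : 3 < p) (hh : p = 2 * h + 1) : 2 * O (ZMod p) h = -H (ZMod p) h := by
  have h1 := H_split hp3 h (by omega)
  rw [H_all hp3 hh] at h1
  linear_combination -h1

lemma O2_half (hp3 : 3 < p) (hh : p = 2 * h + 1) : O2 (ZMod p) h = 0 := by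
  have h1 := H2_split hp3 h (by omega)
  rw [H2_all hp3 hh, H2_half hp3 hh] at h1
  have h2 : (2 * 2 : ZMod p) * O2 (ZMod p) h = 0 := by linear_combination -h1
  exact (mul_eq_zero.1 h2).resolve_left (mul_ne_zero (two_ne hp3) (two_ne hp3))

end field

end Pool.Agent.V7H93.BS
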