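import Pool.Agent.V7H93.BS.A

set_option autoImplicit false

/-!
The sums needed modulo `p`.
-/

namespace Pool.Agent.V7H93.BS

open Finset

section field
variable {p : ℕ} [hp : Fact p.Prime]

lemma iv_one : iv (ZMod p) 1 = 1 := by
  unfold iv
  rw [Nat.cast_one, inv_one]

/-- `1 / (k (2 k + 1)) = 1 / k - 2 / (2 k + 1)` -/
lemma rel1 {k : ℕ} (h1 : 1 ≤ k) (h2 : 2 * k + 1 < p) :
    iv (ZMod p) (2 * k + 1) * iv (ZMod p) k = iv (ZMod p) k - 2 * iv (ZMod p) (2 * k + 1) := by
  have ha := mul_iv (p := p) (j := k) h1 (by omega)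
  have hc := mul_iv (p := p) (j := 2 * k + 1) (by omega) h2
  push_cast at hc
  linear_combination (iv (ZMod p) k) * hc - 2 * (iv (ZMod p) (2 * k + 1)) * ha

/-- `1 / k + 1 / (k + 1) - 2 / (2 k + 1)` -/
noncomputable def f (K : Type) [Ring K] [Inv K] (k : ℕ) : K :=
  iv K k + iv K (k + 1) - 2 * iv K (2 * k + 1)

/-- `∑ H_k / (2 k + 1)` -/
noncomputable def P (K : Type) [Semiring K] [Inv K] (n : ℕ) : K :=
  ∑ i ∈ range n, H K (i + 1) * iv K (2 * (i + 1) + 1)

lemma S1 (n : ℕ) (hn : 2 * n + 1 < p) :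
    ∑ i ∈ range n, iv (ZMod p) (2 * (i + 1) + 1) * iv (ZMod p) (i + 1) ^ 2 =
      H2 (ZMod p) n - 2 * H (ZMod p) n + 4 * (O (ZMod p) (n + 1) - 1) := by
  induction n with
  | zero =>
    rw [sum_range_zero, H2_zero, H_zero, O_succ, O_zero, show 2 * 0 + 1 = 1 by norm_num, iv_one]
    ring
  | succ n ih =>
    rw [sum_range_succ, ih (by omega), H2_succ, H_succ, O_succ (n + 1)]
    have h := rel1 (p := p) (k := n + 1) (by omega) (by omega)
    linear_combination (iv (ZMod p) (n + 1) - 2) * h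

lemma S2 (n : ℕ) :
    2 * ∑ i ∈ range n, H (ZMod p) (i + 1) * f (ZMod p) (i + 1) =
      H (ZMod p) n ^ 2 + H2 (ZMod p) n + H (ZMod p) (n + 1) ^ 2 - H2 (ZMod p) (n + 1) -
        4 * P (ZMod p) n := by
  induction n with
  | zero =>
    rw [sum_range_zero, H2_succ, H_succ, H_zero, H2_zero, iv_one]
    unfold P
    rw [sum_range_zero]
    ring
  | succ n ih =>
    rw [sum_range_succ, mul_add, ih]
    unfold P
    rw [sum_range_succ, H2_succ (n + 1), H_succ (n + 1), H2_succ n, H_succ n]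
    unfold f
    ring

lemma S3 (n : ℕ) (hn : 2 * n + 1 < p) :
    ∑ i ∈ range n, O (ZMod p) (i + 2) * f (ZMod p) (i + 1) =
      (H (ZMod p) n * O (ZMod p) (n + 1) - P (ZMod p) n + H (ZMod p) n - 2 * (O (ZMod p) (n + 1) - 1)) +
      (H (ZMod p) (n + 1) * O (ZMod p) (n + 1) - 1 - P (ZMod p) n) -
      (O (ZMod p) (n + 1) ^ 2 - 1 + O2 (ZMod p) (n + 1) - 1) := by
  induction n with
  | zero =>
    rw [sum_range_zero, H_succ, H_zero, O_succ, O_zero, O2_succ, O2_zero,
      show 2 * 0 + 1 = 1 by norm_num, iv_one]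
    unfold P
    rw [sum_range_zero]
    ring
  | succ n ih =>
    rw [sum_range_succ, ih (by omega)]
    have h := rel1 (p := p) (k := n + 1) (by omega) (by omega)
    unfold P
    rw [sum_range_succ, O_succ (n + 1), O2_succ (n + 1), H_succ (n + 1), H_succ n]
    unfold f
    linear_combination h

/-- convolution -/
lemma conv (n : ℕ) (hn : n < p) :
    ∑ j ∈ range n, H (ZMod p) j * iv (ZMod p) (n - j) = H (ZMod p) n ^ 2 - H2 (ZMod p) n := by
  induction n with
  | zero => simp [H_zero, H2_zero]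
  | succ n ih =>
    rw [sum_range_succ', H_zero, zero_mul, add_zero, H_succ, H2_succ]
    have h1 : ∑ k ∈ range n, H (ZMod p) (k + 1) * iv (ZMod p) (n + 1 - (k + 1)) =
        ∑ k ∈ range n, H (ZMod p) k * iv (ZMod p) (n - k) +
        ∑ k ∈ range n, iv (ZMod p) (n + 1) * (iv (ZMod p) (k + 1) + iv (ZMod p) (n - k)) := by
      rw [← sum_add_distrib]
      refine sum_congr rfl fun k hk => ?_
      rw [mem_range] at hk
      rw [H_succ, show n + 1 - (k + 1) = n - k by omega]
      have e1 := mul_iv (p := p) (j := k + 1) (by omega) (by omega)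
      have e2 := mul_iv (p := p) (j := n - k) (by omega) (by omega)
      have e3 := mul_iv (p := p) (j := n + 1) (by omega) (by omega)
      rw [Nat.cast_sub hk.le] at e2
      push_cast at e1 e2 e3
      linear_combination (iv (ZMod p) (n + 1) * iv (ZMod p) (n - k)) * e1 +
        (iv (ZMod p) (n + 1) * iv (ZMod p) (k + 1)) * e2 -
        (iv (ZMod p) (k + 1) * iv (ZMod p) (n - k)) * e3
    rw [h1, ih (by omega), ← mul_sum, sum_add_distrib]
    have h2 : ∑ k ∈ range n, iv (ZMod p) (n - k) = H (ZMod p) n := by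
      unfold H
      rw [← sum_range_reflect]
      refine sum_congr rfl fun k hk => ?_
      rw [mem_range] at hk
      congr 1
      omega
    rw [h2]
    change _ + iv (ZMod p) (n + 1) * (H (ZMod p) n + H (ZMod p) n) = _
    ring

lemma P_half {n : ℕ} (hp3 : 3 < p) (hh : p = 2 * (n + 1) + 1) :
    2 * P (ZMod p) n = -H (ZMod p) (n + 1) ^ 2 := by
  have h1 := conv (p := p) (n + 1) (by omega)
  rw [H2_half hp3 hh, sum_range_succ', H_zero, zero_mul, add_zero, sub_zero] at h1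
  rw [← h1]
  unfold P
  rw [mul_sum, ← sum_neg_distrib]
  refine sum_congr rfl fun i hi => ?_
  rw [mem_range] at hi
  rw [show n + 1 - (i + 1) = n - i by omega]
  have e1 := mul_iv (p := p) (j := 2 * (i + 1) + 1) (by omega) (by omega)
  have e2 := mul_iv (p := p) (j := n - i) (by omega) (by omega)
  have e3 : ((2 * (i + 1) + 1 + 2 * (n - i) : ℕ) : ZMod p) = 0 := by
    rw [show 2 * (i + 1) + 1 + 2 * (n - i) = p by omega]
    exact ZMod.natCast_self p
  rw [Nat.cast_sub hi.le] at e2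
  rw [Nat.cast_add, Nat.cast_mul 2 (n - i), Nat.cast_sub hi.le] at e3
  push_cast at e1 e2 e3
  linear_combination (-(H (ZMod p) (i + 1)) * iv (ZMod p) (n - i)) * e1 -
    2 * H (ZMod p) (i + 1) * iv (ZMod p) (2 * (i + 1) + 1) * e2 +
    H (ZMod p) (i + 1) * iv (ZMod p) (n - i) * iv (ZMod p) (2 * (i + 1) + 1) * e3

/-- the sum modulo `p` -/
noncomputable def G (K : Type) [Ring K] [Inv K] (n : ℕ) : K :=
  ∑ i ∈ range n, (iv K (2 * (i + 1) + 1) * iv K (i + 1) ^ 2 +
    f K (i + 1) * (-3 * H K (i + 1) + 2 * O K (i + 2)))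

lemma G_half {n : ℕ} (hp3 : 3 < p) (hh : p = 2 * (n + 1) + 1) :
    2 * G (ZMod p) n + (4 + 16 * H (ZMod p) (n + 1) + 13 * H (ZMod p) (n + 1) ^ 2) = 0 := by
  have e1 := S1 (p := p) n (by omega)
  have e2 := S2 (p := p) n
  have e3 := S3 (p := p) n (by omega)
  have e4 := P_half hp3 hh
  have e5 := H2_half hp3 hh
  have e6 := O_half hp3 hh
  have e7 := O2_half hp3 hh
  have e8 := mul_iv (p := p) (j := n + 1) (by omega) (by omega)
  have e9 : ((2 * (n + 1) + 1 : ℕ) : ZMod p) = 0 := by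
    rw [← hh]
    exact ZMod.natCast_self p
  have e10 : iv (ZMod p) (n + 1) = -2 := by
    push_cast at e8 e9
    linear_combination -2 * e8 + iv (ZMod p) (n + 1) * e9
  have e11 : G (ZMod p) n = ∑ i ∈ range n, iv (ZMod p) (2 * (i + 1) + 1) * iv (ZMod p) (i + 1) ^ 2
      - 3 * ∑ i ∈ range n, H (ZMod p) (i + 1) * f (ZMod p) (i + 1)
      + 2 * ∑ i ∈ range n, O (ZMod p) (i + 2) * f (ZMod p) (i + 1) := by
    unfold G
    rw [mul_sum, mul_sum, ← sum_sub_distrib, ← sum_add_distrib]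
    refine sum_congr rfl fun i _ => ?_
    ring
  have e12 : H (ZMod p) n = H (ZMod p) (n + 1) + 2 := by
    rw [H_succ, e10]
    ring
  have e13 : H2 (ZMod p) n = -4 := by
    rw [H2_succ, e10] at e5
    linear_combination e5
  rw [e13, e12] at e1
  rw [e13, e12, e5] at e2
  rw [e12, e7] at e3
  rw [e11]
  linear_combination 2 * e1 - 3 * e2 + 4 * e3 + 2 * e4 +
    (4 - (2 * O (ZMod p) (n + 1) - 5 * H (ZMod p) (n + 1))) * e6

end field

end Pool.Agent.V7H93.BS
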