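import Pool.Agent.V7H93.BS.B

set_option autoImplicit false

/-!
Morley's and Wolstenholme's congruences modulo `p ^ 3`.
-/

namespace Pool.Agent.V7H93.BS

open Finset

/-- expansion of a product -/
lemma prod_exp {A : Type} [CommRing A] {t : A} (ht : t ^ 3 = 0) (a : ℕ → A) (n : ℕ) :
    ∃ E : A, ∏ j ∈ range n, (1 + t * a j) = 1 + t * ∑ j ∈ range n, a j + t ^ 2 * E ∧
      2 * E = (∑ j ∈ range n, a j) ^ 2 - ∑ j ∈ range n, a j ^ 2 := by
  induction n with
  | zero => exact ⟨0, by simp, by simp⟩
  | succ n ih =>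
    obtain ⟨E, h1, h2⟩ := ih
    refine ⟨E + (∑ j ∈ range n, a j) * a n, ?_, ?_⟩
    · rw [prod_range_succ, h1, sum_range_succ]
      linear_combination (E * a n) * ht
    · rw [sum_range_succ, sum_range_succ]
      linear_combination h2

section ring
variable {p : ℕ} [hp : Fact p.Prime]

lemma two_cancel (hp3 : 3 < p) {x y : R p} (h : 2 * x = 2 * y) : x = y := by
  have h2 := cast_iv (p := p) (j := 2) (by norm_num) (by omega)
  push_cast at h2
  linear_combination (iv (R p) 2) * h - (x - y) * h2

lemma fact_cancel {n : ℕ} (hn : n < p) {x y : R p} (h : ((n.factorial : ℕ) : R p) * x = (n.factorial : ℕ) * y) :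
    x = y := by
  have h2 : ((n.factorial : ℕ) : R p) * ((n.factorial : ℕ) : R p)⁻¹ = 1 := by
    refine ZMod.coe_mul_inv_eq_one _ ?_
    refine Nat.Coprime.pow_right 3 ?_
    exact ((hp.out.coprime_iff_not_dvd).2 (fun hd => by
      have := (hp.out.dvd_factorial).1 hd
      omega)).symm
  linear_combination (((n.factorial : ℕ) : R p)⁻¹) * h - (x - y) * h2

variable {h : ℕ}

lemma H_reflect (n : ℕ) : ∑ j ∈ range n, iv (R p) (n - j) = H (R p) n := by
  unfold H
  rw [← sum_range_reflect]
  refine sum_congr rfl fun k hk => ?_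
  rw [mem_range] at hk
  congr 1
  omega

lemma pi_H_all (hp3 : 3 < p) (hh : p = 2 * h + 1) : ((p : ℕ) : R p) * H (R p) (2 * h) = 0 := by
  have h1 : 2 * H (R p) (2 * h) = ((p : ℕ) : R p) *
      ∑ j ∈ range (2 * h), iv (R p) (j + 1) * iv (R p) (2 * h - j) := by
    have h2 : 2 * H (R p) (2 * h) = ∑ j ∈ range (2 * h), iv (R p) (j + 1) +
        ∑ j ∈ range (2 * h), iv (R p) (2 * h - j) := by
      rw [H_reflect]
      unfold H
      ring
    rw [h2, ← sum_add_distrib, mul_sum]
    refine sum_congr rfl fun j hj => ?_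
    rw [mem_range] at hj
    have e1 := cast_iv (p := p) (j := j + 1) (by omega) (by omega)
    have e2 := cast_iv (p := p) (j := 2 * h - j) (by omega) (by omega)
    have e3 : ((p : ℕ) : R p) = ((j + 1 : ℕ) : R p) + ((2 * h - j : ℕ) : R p) := by
      rw [← Nat.cast_add]
      congr 1
      omega
    rw [e3]
    linear_combination -(iv (R p) (2 * h - j)) * e1 - (iv (R p) (j + 1)) * e2
  have h3 : ((p : ℕ) : R p) ^ 2 * ∑ j ∈ range (2 * h), iv (R p) (j + 1) * iv (R p) (2 * h - j) = 0 := by
    apply pi_sq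
    rw [map_sum]
    have h4 : ∑ j ∈ range (2 * h), red p (iv (R p) (j + 1) * iv (R p) (2 * h - j)) =
        - H2 (ZMod p) (2 * h) := by
      unfold H2
      rw [← sum_neg_distrib]
      refine sum_congr rfl fun j hj => ?_
      rw [mem_range] at hj
      rw [map_mul, red_iv (by omega) (by omega), red_iv (by omega) (by omega)]
      have e : ((2 * h - j : ℕ) : ZMod p) = -((j + 1 : ℕ) : ZMod p) := by
        have e2 : ((2 * h - j + (j + 1) : ℕ) : ZMod p) = 0 := by
          rw [show 2 * h - j + (j + 1) = p by omega]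
          exact ZMod.natCast_self p
        rw [Nat.cast_add] at e2
        linear_combination e2
      unfold iv
      rw [e, inv_neg]
      ring
    rw [h4, H2_all hp3 hh, neg_zero]
  apply two_cancel hp3
  linear_combination ((p : ℕ) : R p) * h1 + h3

/-- even and odd terms in the ring -/
lemma H_split' (n : ℕ) (hn : 2 * n < p) : 2 * H (R p) (2 * n) = H (R p) n + 2 * O (R p) n := by
  induction n with
  | zero => simp [H_zero, O_zero]
  | succ n ih =>
    rw [show 2 * (n + 1) = (2 * n + 1) + 1 by ring, H_succ, H_succ, H_succ, O_succ, mul_add, mul_add,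
      ih (by omega)]
    have e1 := cast_iv (p := p) (j := 2 * n + 1 + 1) (by omega) (by omega)
    have e2 := cast_iv (p := p) (j := n + 1) (by omega) (by omega)
    push_cast at e1 e2
    have e : 2 * iv (R p) (2 * n + 1 + 1) = iv (R p) (n + 1) := by
      linear_combination iv (R p) (n + 1) * e1 - 2 * iv (R p) (2 * n + 1 + 1) * e2
    linear_combination e

lemma pi_O_half (hp3 : 3 < p) (hh : p = 2 * h + 1) :
    ((p : ℕ) : R p) * (2 * O (R p) h + H (R p) h) = 0 := by
  have h1 := H_split' (p := p) h (by omega)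
  have h2 := pi_H_all hp3 hh
  linear_combination -((p : ℕ) : R p) * h1 + 2 * h2

lemma choose_prod (k : ℕ) (hk : k < p) : (-1) ^ k * (((p - 1).choose k : ℕ) : R p) =
    ∏ j ∈ range k, (1 + ((p : ℕ) : R p) * (-iv (R p) (j + 1))) := by
  induction k with
  | zero => simp
  | succ k ih =>
    rw [prod_range_succ, ← ih (by omega)]
    have e1 : (((p - 1).choose (k + 1) : ℕ) : R p) * ((k + 1 : ℕ) : R p) =
        (((p - 1).choose k : ℕ) : R p) * (((p : ℕ) : R p) - 1 - k) := by
      have h1 := Nat.choose_succ_right_eq (p - 1) k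
      have h2 := congrArg (Nat.cast : ℕ → R p) h1
      rw [Nat.cast_mul, Nat.cast_mul, Nat.cast_sub (by omega), Nat.cast_sub hp.out.one_lt.le] at h2
      rw [h2]
      push_cast
      ring
    have e2 := cast_iv (p := p) (j := k + 1) (by omega) (by omega)
    push_cast at e1 e2
    rw [pow_succ (-1 : R p) k]
    linear_combination (-((-1) ^ k * iv (R p) (k + 1))) * e1 +
      ((-1) ^ k * (((p - 1).choose (k + 1) : ℕ) : R p) + (-1) ^ k * (((p - 1).choose k : ℕ) : R p)) * e2

lemma cb_fact (n : ℕ) : Nat.centralBinom n * n.factorial = 2 ^ n * ∏ j ∈ range n, (2 * j + 1) := by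
  induction n with
  | zero => simp
  | succ n ih =>
    rw [prod_range_succ, Nat.factorial_succ]
    have h1 := Nat.succ_mul_centralBinom_succ n
    calc Nat.centralBinom (n + 1) * ((n + 1) * n.factorial) =
        ((n + 1) * Nat.centralBinom (n + 1)) * n.factorial := by ring
      _ = 2 * (2 * n + 1) * (Nat.centralBinom n * n.factorial) := by rw [h1]; ring
      _ = _ := by rw [ih]; ring

lemma half_prod (hh : p = 2 * h + 1) : (2 : R p) ^ (2 * h) *
    ∏ j ∈ range h, (1 + ((p : ℕ) : R p) * (-iv (R p) (2 * (j + 1)))) =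
      (-1) ^ h * ((Nat.centralBinom h : ℕ) : R p) := by
  have h1 : ((h.factorial : ℕ) : R p) * (2 ^ h * ∏ j ∈ range h, (1 + ((p : ℕ) : R p) * (-iv (R p) (2 * (j + 1)))))
      = (-1) ^ h * ∏ j ∈ range h, (2 * (j : R p) + 1) := by
    rw [← prod_range_add_one_eq_factorial]
    push_cast
    have e1 : (2 : R p) ^ h = ∏ j ∈ range h, (2 : R p) := by
      rw [prod_const, card_range]
    have e2 : (-1 : R p) ^ h = ∏ j ∈ range h, (-1 : R p) := by
      rw [prod_const, card_range]
    rw [e1, e2, ← prod_mul_distrib, ← prod_mul_distrib, ← prod_mul_distrib,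
      ← prod_range_reflect (fun j => (-1 : R p) * (2 * (j : R p) + 1))]
    refine prod_congr rfl fun j hj => ?_
    rw [mem_range] at hj
    have e3 := cast_iv (p := p) (j := 2 * (j + 1)) (by omega) (by omega)
    have e4 : (((h - 1 - j : ℕ) : ℕ) : R p) = h - 1 - j := by
      rw [Nat.cast_sub (by omega), Nat.cast_sub (by omega)]
      push_cast
      ring
    have e5 : ((p : ℕ) : R p) = ((2 * h + 1 : ℕ) : R p) := congrArg Nat.cast hh
    rw [e4]
    push_cast at e3 e5
    linear_combination (-((p : ℕ) : R p)) * e3 - e5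
  have h2 : ((Nat.centralBinom h : ℕ) : R p) * (h.factorial : ℕ) =
      2 ^ h * ∏ j ∈ range h, (2 * (j : R p) + 1) := by
    have := congrArg (Nat.cast : ℕ → R p) (cb_fact h)
    push_cast at this
    exact this
  apply fact_cancel (p := p) (n := h) (by omega)
  rw [two_mul, pow_add]
  linear_combination (2 : R p) ^ h * h1 - (-1) ^ h * h2

end ring

end Pool.Agent.V7H93.BS
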