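import Pool.Agent.V7H93.BS.C

set_option autoImplicit false

/-!
Morley's congruence, and the terms of the sum modulo `p ^ 3`.
-/

namespace Pool.Agent.V7H93.BS

open Finset

section ring
variable {p : ℕ} [hp : Fact p.Prime] {h : ℕ}

/-- the uniformiser -/
noncomputable abbrev pi (p : ℕ) : R p := ((p : ℕ) : R p)

lemma pi3 : (pi p) ^ 3 = 0 := pi_cube

lemma pi_H2_half (hp3 : 3 < p) (hh : p = 2 * h + 1) : (pi p) ^ 2 * H2 (R p) h = 0 := by
  apply pi_sq
  rw [red_H2 (by omega), H2_half hp3 hh]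

lemma morley (hp3 : 3 < p) (hh : p = 2 * h + 1) (q : R p) (hq : (2 : R p) ^ (2 * h) = 1 + pi p * q) :
    pi p * H (R p) h = -2 * pi p * q + (pi p) ^ 2 * q ^ 2 ∧
      (-1) ^ h * ((Nat.centralBinom h : ℕ) : R p) = (1 + pi p * q) ^ 2 := by
  have h0 := pi3 (p := p)
  obtain ⟨E, hE1, hE2⟩ := prod_exp h0 (fun j => -iv (R p) (j + 1)) h
  obtain ⟨E', hF1, hF2⟩ := prod_exp h0 (fun j => -iv (R p) (2 * (j + 1))) h
  have h1 := choose_prod (p := p) h (by omega)
  have hc : (p - 1).choose h = Nat.centralBinom h := by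
    rw [Nat.centralBinom_eq_two_mul_choose]
    congr 1
    omega
  rw [hc] at h1
  have h2 := half_prod (p := p) hh
  set y : R p := ∑ j ∈ range h, iv (R p) (2 * (j + 1)) with hy
  set y2 : R p := ∑ j ∈ range h, iv (R p) (2 * (j + 1)) ^ 2 with hy2
  have e0 : ∀ j ∈ range h, 2 * iv (R p) (2 * (j + 1)) = iv (R p) (j + 1) := by
    intro j hj
    rw [mem_range] at hj
    have e1 := cast_iv (p := p) (j := 2 * (j + 1)) (by omega) (by omega)
    have e2 := cast_iv (p := p) (j := j + 1) (by omega) (by omega)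
    push_cast at e1 e2
    linear_combination iv (R p) (j + 1) * e1 - 2 * iv (R p) (2 * (j + 1)) * e2
  have ey : 2 * y = H (R p) h := by
    rw [hy, mul_sum]
    exact sum_congr rfl e0
  have ey2 : 4 * y2 = H2 (R p) h := by
    rw [hy2, mul_sum]
    refine sum_congr rfl fun j hj => ?_
    rw [← e0 j hj]
    ring
  have eH2 := pi_H2_half (p := p) hp3 hh
  have ey2' : (pi p) ^ 2 * y2 = 0 := by
    apply two_cancel hp3
    apply two_cancel hp3
    linear_combination (pi p) ^ 2 * ey2 + eH2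
  have s1 : ∑ j ∈ range h, -iv (R p) (j + 1) = -(2 * y) := by
    rw [sum_neg_distrib, ey]
    rfl
  have s2 : ∑ j ∈ range h, -iv (R p) (2 * (j + 1)) = -y := by
    rw [sum_neg_distrib]
  have s3 : ∑ j ∈ range h, (-iv (R p) (j + 1)) ^ 2 = H2 (R p) h := by
    refine sum_congr rfl fun j _ => ?_
    rw [neg_sq]
  have s4 : ∑ j ∈ range h, (-iv (R p) (2 * (j + 1))) ^ 2 = y2 := by
    refine sum_congr rfl fun j _ => ?_
    rw [neg_sq]
  rw [s1, s3] at hE2
  rw [s2, s4] at hF2
  rw [s1] at hE1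
  rw [s2] at hF1
  rw [hE1] at h1
  rw [hF1, hq, h1] at h2
  -- the equations
  have q2 : (pi p) ^ 2 * y = -(pi p) ^ 2 * q := by
    linear_combination (pi p) * h2 + (E - E' + y * q - (pi p) * q * E') * h0
  have q3 : (pi p) ^ 2 * y ^ 2 = (pi p) ^ 2 * q ^ 2 := by
    linear_combination (y - q) * q2
  have q4 : 2 * ((pi p) ^ 2 * E) = 4 * ((pi p) ^ 2 * y ^ 2) := by
    linear_combination (pi p) ^ 2 * hE2 - eH2
  have q5 : 2 * ((pi p) ^ 2 * E') = (pi p) ^ 2 * y ^ 2 := by
    linear_combination (pi p) ^ 2 * hF2 - ey2'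
  have q6 : pi p * (2 * y) = -2 * pi p * q + (pi p) ^ 2 * q ^ 2 := by
    apply two_cancel hp3
    linear_combination 4 * h2 - 4 * q * E' * h0 - 2 * q5 + 2 * q4 + 6 * q3 + 4 * q * q2
  refine ⟨by rw [← ey]; exact q6, ?_⟩
  rw [h1]
  apply two_cancel hp3
  linear_combination -2 * q6 + q4 + 4 * q3

/-- `(2 p - 1) Cat_{p-1} = 1` -/
lemma cat_eq (hp3 : 3 < p) (hh : p = 2 * h + 1) : (2 * pi p - 1) * ((catalan (2 * h) : ℕ) : R p) = 1 := by
  have h0 := pi3 (p := p)
  set n : ℕ := 2 * h with hn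
  have h1 : (n + 1) * catalan n = Nat.centralBinom n := succ_mul_catalan_eq_centralBinom n
  have h2 : (n + 1).factorial * (n + 2).ascFactorial n = (2 * n + 1).factorial := by
    have := Nat.factorial_mul_ascFactorial (n + 1) n
    rw [this]
    congr 1
    ring
  have h3 : Nat.centralBinom n * (n.factorial * n.factorial) = (2 * n).factorial := by
    rw [Nat.centralBinom_eq_two_mul_choose]
    have := Nat.choose_mul_factorial_mul_factorial (n := 2 * n) (k := n) (by omega)
    rw [show 2 * n - n = n by omega] at this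
    rw [← this]
    ring
  have h4 : (n + 2).ascFactorial n = (2 * n + 1) * catalan n * n.factorial := by
    have h5 : (n + 1).factorial * (n + 2).ascFactorial n =
        (n + 1).factorial * ((2 * n + 1) * catalan n * n.factorial) := by
      rw [h2, Nat.factorial_succ, ← h3, ← h1, Nat.factorial_succ]
      ring
    exact Nat.eq_of_mul_eq_mul_left (Nat.factorial_pos _) h5
  rw [Nat.ascFactorial_eq_prod_range] at h4
  have h6 := congrArg (Nat.cast : ℕ → R p) h4
  push_cast at h6
  have e5 : ((p : ℕ) : R p) = ((n + 1 : ℕ) : R p) := congrArg Nat.cast hh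
  push_cast at e5
  have h7 : ∏ i ∈ range n, ((n : R p) + 2 + i) =
      ((n.factorial : ℕ) : R p) * ∏ i ∈ range n, (1 + pi p * iv (R p) (i + 1)) := by
    rw [← prod_range_add_one_eq_factorial]
    push_cast
    rw [← prod_mul_distrib]
    refine prod_congr rfl fun i hi => ?_
    rw [mem_range] at hi
    have e3 := cast_iv (p := p) (j := i + 1) (by omega) (by omega)
    push_cast at e3
    linear_combination -(pi p) * e3 - e5
  obtain ⟨E, hE1, hE2⟩ := prod_exp h0 (fun j => iv (R p) (j + 1)) n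
  have hH := pi_H_all (p := p) hp3 hh
  have hH2 : (pi p) ^ 2 * H2 (R p) n = 0 := by
    apply pi_sq
    rw [red_H2 (by omega), H2_all hp3 hh]
  have hE3 : (pi p) ^ 2 * E = 0 := by
    apply two_cancel hp3
    have hE4 : 2 * E = H (R p) n ^ 2 - H2 (R p) n := hE2
    linear_combination (pi p) ^ 2 * hE4 + (pi p) * H (R p) n * hH - hH2
  have hE5 : ∏ i ∈ range n, (1 + pi p * iv (R p) (i + 1)) = 1 := by
    rw [hE1]
    have hH' : pi p * ∑ j ∈ range n, iv (R p) (j + 1) = 0 := hH
    linear_combination hH' + hE3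
  rw [h7, hE5] at h6
  apply fact_cancel (p := p) (n := n) (by omega)
  linear_combination -h6 + 2 * ((n.factorial : ℕ) : R p) * (catalan n : R p) * e5

end ring

end Pool.Agent.V7H93.BS
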