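import Pool.Agent.V7H93.BS.D

set_option autoImplicit false

/-!
The sum modulo `p ^ 3`.
-/

namespace Pool.Agent.V7H93.BS

open Finset

/-- the symmetric part of the terms -/
def w (p k : ℕ) : ℕ := ((p - 1).choose k) ^ 2 * Nat.centralBinom k * Nat.centralBinom (p - 1 - k)

/-- the terms -/
def tm (p b : ℕ) : ℕ := (p - 1).choose (b + 1) * (p - 2).choose b * catalan (b + 1) *
  Nat.centralBinom (p - 2 - b)

section ring
variable {p : ℕ} [hp : Fact p.Prime] {h : ℕ}

lemma w_symm {k : ℕ} (hk : k ≤ p - 1) : w p (p - 1 - k) = w p k := by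
  unfold w
  rw [Nat.choose_symm hk, show p - 1 - (p - 1 - k) = k by omega]
  ring

lemma w_zero (hp3 : 3 < p) (hh : p = 2 * h + 1) : ((w p 0 : ℕ) : R p) = -pi p * (1 + 2 * pi p) := by
  have h0 := pi3 (p := p)
  have hcat := cat_eq (p := p) hp3 hh
  have h1 : w p 0 = p * catalan (2 * h) := by
    unfold w
    have := succ_mul_catalan_eq_centralBinom (2 * h)
    rw [Nat.choose_zero_right, Nat.centralBinom_zero, show p - 1 - 0 = 2 * h by omega, ← this, ← hh]
    ring
  rw [h1, Nat.cast_mul]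
  linear_combination -(pi p) * (1 + 2 * pi p) * hcat + 4 * ((catalan (2 * h) : ℕ) : R p) * h0

lemma w_rec (hp3 : 3 < p) {k : ℕ} (hk : k + 2 ≤ p) :
    ((k : R p) + 1) ^ 3 * (2 * pi p - 3 - 2 * k) * (w p (k + 1) : ℕ) =
      (2 * k + 1) * (pi p - 1 - k) ^ 3 * (w p k : ℕ) := by
  have c1 : (((p - 1).choose (k + 1) : ℕ) : R p) * (k + 1) =
      (((p - 1).choose k : ℕ) : R p) * (pi p - 1 - k) := by
    have h1 := Nat.choose_succ_right_eq (p - 1) k
    have h2 := congrArg (Nat.cast : ℕ → R p) h1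
    rw [Nat.cast_mul, Nat.cast_mul, Nat.cast_sub (by omega), Nat.cast_sub hp.out.one_lt.le] at h2
    push_cast at h2
    exact h2
  have c2 : ((k : R p) + 1) * (Nat.centralBinom (k + 1) : ℕ) = 2 * (2 * k + 1) * (Nat.centralBinom k : ℕ) := by
    have h1 := Nat.succ_mul_centralBinom_succ k
    have h2 := congrArg (Nat.cast : ℕ → R p) h1
    push_cast at h2
    exact h2
  have c3 : (pi p - 1 - k) * (Nat.centralBinom (p - 1 - k) : ℕ) =
      2 * (2 * pi p - 3 - 2 * k) * (Nat.centralBinom (p - 1 - (k + 1)) : ℕ) := by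
    have h1 := Nat.succ_mul_centralBinom_succ (p - 1 - (k + 1))
    rw [show p - 1 - (k + 1) + 1 = p - 1 - k by omega] at h1
    have h2 := congrArg (Nat.cast : ℕ → R p) h1
    have h3 : (((p - 1 - (k + 1) : ℕ) : ℕ) : R p) = pi p - 2 - k := by
      rw [Nat.cast_sub (by omega), Nat.cast_sub hp.out.one_lt.le]
      push_cast
      ring
    have h4 : (((p - 1 - k : ℕ) : ℕ) : R p) = pi p - 1 - k := by
      rw [Nat.cast_sub (by omega), Nat.cast_sub hp.out.one_lt.le]
      push_cast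
      ring
    rw [Nat.cast_mul, Nat.cast_mul, Nat.cast_mul, Nat.cast_add, Nat.cast_mul, h3, h4] at h2
    rw [h2]
    push_cast
    ring
  apply two_cancel hp3
  unfold w
  push_cast
  set A := (((p - 1).choose (k + 1) : ℕ) : R p)
  set B := (((p - 1).choose k : ℕ) : R p)
  set C := ((Nat.centralBinom (k + 1) : ℕ) : R p)
  set D := ((Nat.centralBinom k : ℕ) : R p)
  set E := ((Nat.centralBinom (p - 1 - (k + 1)) : ℕ) : R p)
  set F := ((Nat.centralBinom (p - 1 - k) : ℕ) : R p)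
  calc 2 * (((k : R p) + 1) ^ 3 * (2 * pi p - 3 - 2 * k) * (A ^ 2 * C * E)) =
      (A * (k + 1)) ^ 2 * ((k + 1) * C) * (2 * (2 * pi p - 3 - 2 * k) * E) := by ring
    _ = 2 * ((2 * k + 1) * (pi p - 1 - k) ^ 3 * (B ^ 2 * D * F)) := by
        rw [c1, c2, ← c3]
        ring

lemma iv_one' : iv (R p) 1 = 1 := by
  have := cast_iv (p := p) (j := 1) le_rfl hp.out.one_lt
  rwa [Nat.cast_one, one_mul] at this

lemma w_eq (hp3 : 3 < p) (hh : p = 2 * h + 1) (k : ℕ) (hk : k + 1 ≤ h) :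
    (2 * (k : R p) + 1) * (w p k : ℕ) =
      -pi p * (1 - 3 * pi p * H (R p) k + 2 * pi p * O (R p) (k + 1)) := by
  have h0 := pi3 (p := p)
  induction k with
  | zero =>
    rw [w_zero hp3 hh, H_zero, O_succ, O_zero, show 2 * 0 + 1 = 1 by norm_num, iv_one']
    push_cast
    ring
  | succ k ih =>
    have ih' := ih (by omega)
    have hr := w_rec (p := p) hp3 (k := k) (by omega)
    have ea := cast_iv (p := p) (j := k + 1) (by omega) (by omega)
    have ec := cast_iv (p := p) (j := 2 * (k + 1) + 1) (by omega) (by omega)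
    rw [H_succ, O_succ (k + 1)]
    push_cast at ea ec ⊢
    set a := iv (R p) (k + 1)
    set c := iv (R p) (2 * (k + 1) + 1)
    set W := ((w p (k + 1) : ℕ) : R p)
    set W0 := ((w p k : ℕ) : R p)
    set Hk := H (R p) k
    set Ok := O (R p) (k + 1)
    -- first step
    have s1 : ((k : R p) + 1) ^ 3 * ((2 * pi p - 3 - 2 * k) * W) =
        ((k : R p) + 1) ^ 3 * (pi p * (1 - 3 * pi p * (Hk + a) + 2 * pi p * Ok)) := by
      linear_combination hr + (pi p - 1 - k) ^ 3 * ih' + 3 * (pi p) ^ 2 * ((k : R p) + 1) ^ 2 * ea +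
        (-3 * ((k : R p) + 1) ^ 2 * (-3 * Hk + 2 * Ok) +
          3 * ((k : R p) + 1) * (1 - 3 * pi p * Hk + 2 * pi p * Ok) -
          pi p * (1 - 3 * pi p * Hk + 2 * pi p * Ok)) * h0
    have s2 : (2 * pi p - 3 - 2 * k) * W = pi p * (1 - 3 * pi p * (Hk + a) + 2 * pi p * Ok) := by
      linear_combination a ^ 3 * s1 - ((2 * pi p - 3 - 2 * k) * W -
        pi p * (1 - 3 * pi p * (Hk + a) + 2 * pi p * Ok)) *
          ((((k : R p) + 1) * a) ^ 2 + ((k : R p) + 1) * a + 1) * ea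
    have s3 : (pi p) ^ 2 * W = 0 := by
      linear_combination -c * (pi p) ^ 2 * s2 - (pi p) ^ 2 * W * ec +
        (2 * c * W - c * (1 - 3 * pi p * (Hk + a) + 2 * pi p * Ok)) * h0
    linear_combination -s2 - 2 * pi p * c * s2 + 4 * c * s3 - 2 * pi p * W * ec -
      2 * c * (-3 * (Hk + a) + 2 * Ok) * h0

lemma rel1' {k : ℕ} (h1 : 1 ≤ k) (h2 : 2 * k + 1 < p) :
    iv (R p) (2 * k + 1) * iv (R p) k = iv (R p) k - 2 * iv (R p) (2 * k + 1) := by
  have ha := cast_iv (p := p) (j := k) h1 (by omega)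
  have hc := cast_iv (p := p) (j := 2 * k + 1) (by omega) h2
  push_cast at hc
  linear_combination (iv (R p) k) * hc - 2 * (iv (R p) (2 * k + 1)) * ha

lemma rel2' {k : ℕ} (h2 : 2 * k + 1 < p) (hk1 : k + 1 < p) :
    iv (R p) (2 * k + 1) * iv (R p) (k + 1) = 2 * iv (R p) (2 * k + 1) - iv (R p) (k + 1) := by
  have ha := cast_iv (p := p) (j := k + 1) (by omega) hk1
  have hc := cast_iv (p := p) (j := 2 * k + 1) (by omega) h2
  push_cast at hc ha
  linear_combination -(iv (R p) (k + 1)) * hc + 2 * (iv (R p) (2 * k + 1)) * ha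

lemma tm_rel {b : ℕ} (hb : b + 2 ≤ p) : (pi p - 1) * (b + 2) * (tm p b : ℕ) = ((b : R p) + 1) * (w p (b + 1) : ℕ) := by
  have h1 : (p - 1) * (b + 2) * tm p b = (b + 1) * w p (b + 1) := by
    unfold tm w
    have c1 := Nat.add_one_mul_choose_eq (p - 2) b
    rw [show p - 2 + 1 = p - 1 by omega] at c1
    have c2 := succ_mul_catalan_eq_centralBinom (b + 1)
    rw [show p - 1 - (b + 1) = p - 2 - b by omega, ← c2]
    calc (p - 1) * (b + 2) * ((p - 1).choose (b + 1) * (p - 2).choose b * catalan (b + 1) *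
          Nat.centralBinom (p - 2 - b)) =
        ((p - 1) * (p - 2).choose b) * ((p - 1).choose (b + 1) * (b + 2) * catalan (b + 1) *
          Nat.centralBinom (p - 2 - b)) := by ring
      _ = _ := by rw [c1]; ring
  have h2 := congrArg (Nat.cast : ℕ → R p) h1
  rw [Nat.cast_mul, Nat.cast_mul, Nat.cast_mul, Nat.cast_sub hp.out.one_lt.le] at h2
  push_cast at h2
  exact h2

lemma pair_eq (hp3 : 3 < p) (hh : p = 2 * h + 1) {i : ℕ} (hi : i + 2 ≤ h) :
    ((tm p i : ℕ) : R p) + (tm p (p - 3 - i) : ℕ) = (1 + pi p) * pi p * f (R p) (i + 1) +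
      (pi p) ^ 2 * (iv (R p) (2 * (i + 1) + 1) * iv (R p) (i + 1) ^ 2 +
        f (R p) (i + 1) * (-3 * H (R p) (i + 1) + 2 * O (R p) (i + 2))) := by
  have h0 := pi3 (p := p)
  have hA := tm_rel (p := p) (b := i) (by omega)
  have hB := tm_rel (p := p) (b := p - 3 - i) (by omega)
  rw [show p - 3 - i + 1 = p - 1 - (i + 1) by omega, w_symm (by omega)] at hB
  have hW := w_eq (p := p) hp3 hh (i + 1) (by omega)
  have ea := cast_iv (p := p) (j := i + 1) (by omega) (by omega)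
  have eb := cast_iv (p := p) (j := i + 1 + 1) (by omega) (by omega)
  have ec := cast_iv (p := p) (j := 2 * (i + 1) + 1) (by omega) (by omega)
  have ed := cast_iv (p := p) (j := p - (i + 1)) (by omega) (by omega)
  have r1 := rel1' (p := p) (k := i + 1) (by omega) (by omega)
  have r2 := rel2' (p := p) (k := i + 1) (by omega) (by omega)
  have e4 : (((p - 3 - i : ℕ) : ℕ) : R p) = pi p - 3 - i := by
    rw [Nat.cast_sub (by omega), Nat.cast_sub (by omega)]
    push_cast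
    ring
  have e5 : (((p - (i + 1) : ℕ) : ℕ) : R p) = pi p - (i + 1) := by
    rw [Nat.cast_sub (by omega)]
    push_cast
    ring
  rw [e4] at hB
  rw [e5] at ed
  unfold f
  push_cast at hA hB hW ea eb ec ⊢
  set a := iv (R p) (i + 1)
  set b := iv (R p) (i + 1 + 1)
  set c := iv (R p) (2 * (i + 1) + 1)
  set d := iv (R p) (p - (i + 1))
  set W := ((w p (i + 1) : ℕ) : R p)
  set t1 := ((tm p i : ℕ) : R p)
  set t2 := ((tm p (p - 3 - i) : ℕ) : R p)
  set Hk := H (R p) (i + 1)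
  set Ok := O (R p) (i + 2)
  set k : R p := (i : R p) + 1 with hk
  have hA' : (pi p - 1) * (k + 1) * t1 = k * W := by
    linear_combination hA + (pi p - 1) * t1 * hk
  have hB' : (pi p - 1) * (pi p - k) * t2 = (pi p - 1 - k) * W := by
    linear_combination hB - ((pi p - 1) * t2 - W) * hk
  have T1 : t1 = -(1 + pi p + (pi p) ^ 2) * k * b * W := by
    linear_combination -(1 + pi p + (pi p) ^ 2) * b * hA' - t1 * eb + (k + 1) * b * t1 * h0
  have T2 : t2 = -(1 + pi p + (pi p) ^ 2) * (pi p - 1 - k) * d * W := by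
    linear_combination -(1 + pi p + (pi p) ^ 2) * d * hB' - t2 * ed + (pi p - k) * d * t2 * h0
  have W1 : W = -c * pi p * (1 - 3 * pi p * Hk + 2 * pi p * Ok) := by
    linear_combination c * hW - W * ec
  have D : pi p * d = -pi p * a - (pi p) ^ 2 * a ^ 2 := by
    linear_combination d * pi p * ed - d * (pi p + (pi p) ^ 2 * a) * ea + d * a ^ 2 * h0 -
      (pi p * d + pi p * a + (pi p) ^ 2 * a ^ 2) * ed
  have X1 : t1 + t2 = c * (1 + pi p + (pi p) ^ 2) * (1 - 3 * pi p * Hk + 2 * pi p * Ok) *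
      (pi p * (2 + a - b) + (pi p) ^ 2 * a ^ 2) := by
    linear_combination T1 + T2 - (1 + pi p + (pi p) ^ 2) * (k * b + (pi p - 1 - k) * d) * W1 +
      (1 + pi p + (pi p) ^ 2) * c * (1 - 3 * pi p * Hk + 2 * pi p * Ok) *
        (pi p * eb + (pi p - 1 - k) * D + (pi p + (pi p) ^ 2 * a) * ea - a ^ 2 * h0)
  linear_combination X1 + ((1 + pi p) * pi p + (pi p) ^ 2 * (-3 * Hk + 2 * Ok)) * (r1 - r2) +
    c * ((a ^ 2 + (2 + a - b)) * (1 + (-3 * Hk + 2 * Ok)) +
      pi p * (a ^ 2 * (1 + (-3 * Hk + 2 * Ok)) + (2 + a - b) * (-3 * Hk + 2 * Ok)) +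
      (pi p) ^ 2 * a ^ 2 * (-3 * Hk + 2 * Ok)) * h0

lemma f_sum (n : ℕ) : ∑ i ∈ range n, f (R p) (i + 1) =
    H (R p) n + (H (R p) (n + 1) - 1) - 2 * (O (R p) (n + 1) - 1) := by
  induction n with
  | zero =>
    rw [sum_range_zero, H_succ, H_zero, O_succ, O_zero, show 2 * 0 + 1 = 1 by norm_num, iv_one']
    ring
  | succ n ih =>
    rw [sum_range_succ, ih, H_succ (n + 1), O_succ (n + 1), H_succ n]
    unfold f
    ring

lemma red_G {n : ℕ} (hh : p = 2 * (n + 1) + 1) : red p (G (R p) n) = G (ZMod p) n := by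
  unfold G
  rw [map_sum]
  refine sum_congr rfl fun i hi => ?_
  rw [mem_range] at hi
  unfold f
  have e3 : red p (-3) = -3 := by
    rw [map_neg, map_ofNat]
  have e2 : red p 2 = 2 := map_ofNat _ 2
  rw [map_add, map_mul, map_pow, map_mul, map_sub, map_add, map_mul, map_add, map_mul, map_mul,
    red_iv (by omega) (by omega), red_iv (by omega) (by omega), red_iv (by omega) (by omega),
    red_H (by omega), red_O (by omega), e3, e2]

lemma center (hp3 : 3 < p) (hh : p = 2 * h + 1) (h1 : 1 ≤ h) (q : R p)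
    (hM : (-1) ^ h * ((Nat.centralBinom h : ℕ) : R p) = (1 + pi p * q) ^ 2) :
    (1 + pi p) * (tm p (h - 1) : ℕ) = (1 + pi p * q) ^ 8 := by
  have h0 := pi3 (p := p)
  have hA := tm_rel (p := p) (b := h - 1) (by omega)
  rw [show h - 1 + 1 = h by omega] at hA
  have hw : w p h = Nat.centralBinom h ^ 4 := by
    unfold w
    have hc : (p - 1).choose h = Nat.centralBinom h := by
      rw [Nat.centralBinom_eq_two_mul_choose]
      congr 1
      omega
    rw [hc, show p - 1 - h = h by omega]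
    ring
  have e5 : ((p : ℕ) : R p) = ((2 * h + 1 : ℕ) : R p) := congrArg Nat.cast hh
  have e6 : (((h - 1 : ℕ) : ℕ) : R p) = h - 1 := by
    rw [Nat.cast_sub h1]
    push_cast
    ring
  have e7 : ((Nat.centralBinom h : ℕ) : R p) ^ 4 = (1 + pi p * q) ^ 8 := by
    have e8 : ((-1 : R p) ^ h) ^ 4 = 1 := by
      rw [← pow_mul, mul_comm, pow_mul]
      norm_num
    calc ((Nat.centralBinom h : ℕ) : R p) ^ 4 = ((-1 : R p) ^ h) ^ 4 * ((Nat.centralBinom h : ℕ) : R p) ^ 4 := by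
          rw [e8, one_mul]
      _ = ((-1) ^ h * ((Nat.centralBinom h : ℕ) : R p)) ^ 4 := by rw [mul_pow]
      _ = _ := by rw [hM]; ring
  rw [hw, e6] at hA
  push_cast at hA e5
  rw [e7] at hA
  set t := ((tm p (h - 1) : ℕ) : R p)
  -- `(π - 1) ((π + 1) t - w) = 0`
  have e9 : (pi p - 1) * ((1 + pi p) * t - (1 + pi p * q) ^ 8) = 0 := by
    linear_combination 2 * hA + ((pi p - 1) * t - (1 + pi p * q) ^ 8) * e5
  linear_combination -(1 + pi p + (pi p) ^ 2) * e9 + ((1 + pi p) * t - (1 + pi p * q) ^ 8) * h0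

lemma split_sum (n : ℕ) (F : ℕ → ℕ) : ∑ b ∈ range (2 * n + 2), F b =
    ∑ i ∈ range n, (F i + F (2 * n - i)) + F n + F (2 * n + 1) := by
  rw [sum_range_succ, show 2 * n + 1 = n + (n + 1) by ring, sum_range_add, sum_range_succ' (fun x => F (n + x)),
    ← sum_range_reflect (fun x => F (n + (x + 1))) n, add_zero, sum_add_distrib]
  have h1 : ∑ j ∈ range n, F (n + (n - 1 - j + 1)) = ∑ j ∈ range n, F (2 * n - j) := by
    refine sum_congr rfl fun j hj => ?_
    rw [mem_range] at hj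
    congr 1
    omega
  rw [h1]
  ring

/-- the sum modulo `p ^ 3` -/
theorem Z_mod (hp3 : 3 < p) (q : R p) (hq : (2 : R p) ^ (p - 1) = 1 + pi p * q) :
    ((∑ b ∈ range (p - 1), tm p b : ℕ) : R p) =
      2 * pi p * q + 2 * (pi p) ^ 2 * q + 5 * (pi p) ^ 2 * q ^ 2 := by
  have h0 := pi3 (p := p)
  obtain ⟨n, hn⟩ : ∃ n, p = 2 * (n + 1) + 1 := by
    have h1 := hp.out.eq_two_or_odd'
    rcases h1 with h1 | ⟨m, hm⟩
    · omega
    · exact ⟨m - 1, by omega⟩
  have hq' : (2 : R p) ^ (2 * (n + 1)) = 1 + pi p * q := by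
    rw [← hq]
    congr 1
    omega
  obtain ⟨hm1, hm2⟩ := morley (p := p) hp3 hn q hq'
  have hc := center (p := p) hp3 hn (by omega) q hm2
  rw [show n + 1 - 1 = n by omega] at hc
  have hcat := cat_eq (p := p) hp3 hn
  have hG : (pi p) ^ 2 * (2 * G (R p) n + (4 + 16 * H (R p) (n + 1) + 13 * H (R p) (n + 1) ^ 2)) = 0 := by
    apply pi_sq
    have e16 : red p 16 = 16 := map_ofNat _ 16
    have e13 : red p 13 = 13 := map_ofNat _ 13
    have e4 : red p 4 = 4 := map_ofNat _ 4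
    have e2 : red p 2 = 2 := map_ofNat _ 2
    rw [map_add, map_mul, map_add, map_add, map_mul, map_mul, map_pow, e16, e13, e4, e2, red_G hn,
      red_H (by omega)]
    exact G_half hp3 hn
  have hO := pi_O_half (p := p) hp3 hn
  have hF := f_sum (p := p) n
  have hlast : tm p (2 * n + 1) = catalan (2 * (n + 1)) := by
    unfold tm
    rw [show p - 1 = 2 * n + 1 + 1 by omega, show p - 2 = 2 * n + 1 by omega, Nat.choose_self,
      Nat.choose_self, Nat.sub_self, Nat.centralBinom_zero]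
    ring_nf
  rw [show range (p - 1) = range (2 * n + 2) by congr 1; omega, split_sum n (tm p)]
  push_cast
  have hpair : ∑ i ∈ range n, (((tm p i : ℕ) : R p) + (tm p (2 * n - i) : ℕ)) =
      (1 + pi p) * pi p * ∑ i ∈ range n, f (R p) (i + 1) + (pi p) ^ 2 * G (R p) n := by
    unfold G
    rw [mul_sum, mul_sum, ← sum_add_distrib]
    refine sum_congr rfl fun i hi => ?_
    rw [mem_range] at hi
    rw [← pair_eq (p := p) hp3 hn (i := i) (by omega), show p - 3 - i = 2 * n - i by omega]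
  rw [hpair, hlast, hF]
  have ei := cast_iv (p := p) (j := n + 1) (by omega) (by omega)
  have e5 : ((p : ℕ) : R p) = ((2 * (n + 1) + 1 : ℕ) : R p) := congrArg Nat.cast hn
  have hHn : H (R p) n = H (R p) (n + 1) - iv (R p) (n + 1) := by
    rw [H_succ]
    ring
  rw [hHn]
  push_cast at ei e5 ⊢
  set v := iv (R p) (n + 1)
  set x := H (R p) (n + 1)
  set y := O (R p) (n + 1)
  set g := G (R p) n
  set t := ((tm p n : ℕ) : R p)
  set ct := ((catalan (2 * (n + 1)) : ℕ) : R p)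
  have hv : v = -2 * (1 + pi p + (pi p) ^ 2) := by
    linear_combination v * h0 - (1 + pi p + (pi p) ^ 2) * (v * e5 + 2 * ei)
  have ht : t = (1 - pi p + (pi p) ^ 2) * (1 + 8 * pi p * q + 28 * (pi p) ^ 2 * q ^ 2) := by
    linear_combination (1 - pi p + (pi p) ^ 2) * hc - t * h0 + (1 - pi p + (pi p) ^ 2) *
      (56 * q ^ 3 + 70 * pi p * q ^ 4 + 56 * (pi p) ^ 2 * q ^ 5 + 28 * (pi p) ^ 3 * q ^ 6 +
        8 * (pi p) ^ 4 * q ^ 7 + (pi p) ^ 5 * q ^ 8) * h0
  have hct : ct = -(1 + 2 * pi p + 4 * (pi p) ^ 2) := by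
    linear_combination 8 * ct * h0 - (1 + 2 * pi p + 4 * (pi p) ^ 2) * hcat
  have hx1 : (pi p) ^ 2 * x = -2 * (pi p) ^ 2 * q := by
    linear_combination pi p * hm1 + q ^ 2 * h0
  have hx2 : (pi p) ^ 2 * x ^ 2 = 4 * (pi p) ^ 2 * q ^ 2 := by
    linear_combination (pi p * x + (-2 * pi p * q + (pi p) ^ 2 * q ^ 2)) * hm1 +
      (-4 * q ^ 3 + pi p * q ^ 4) * h0
  apply two_cancel hp3
  rw [ht, hct, hv]
  linear_combination hG - 2 * (1 + pi p) * hO + 6 * hm1 - 10 * hx1 - 13 * hx2 +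
    (8 + 4 * pi p - 56 * q ^ 2 + 16 * q + 56 * pi p * q ^ 2) * h0

end ring

end Pool.Agent.V7H93.BS
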